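import Pool.Agent.H887R3.LW.MV20

/-!
# Sequences of polynomials whose Mahler measures avoid the sets `M(G)`

Let `F_n` be nonzero integer polynomials, each in finitely many variables, such that for every
nonzero integer polynomial `G` the set of the `n` with `m(F_n) ∈ M(G)` is finite.  Then
`∫ log⁺ |F_n| → ∞`, and `∫ |F_n| ^ p → ∞` for every `p > 0`.

More precisely, for every `K` there is `N` such that the logarithmic Mahler measure of every nonzero
integer polynomial `F`, in any number of variables, with `∫ log⁺ |F| ≤ K` belongs to `M(G)` for one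
of the linear forms `G = a_1 z_1 + ⋯ + a_r z_r ≠ 0` with `r ≤ N` and integers `|a_i| ≤ N`.
-/

set_option autoImplicit false

namespace Pool.Agent.Results.MP_9f5454_nt.LogPlusSequences

open Filter

noncomputable section

/-- Value of an integer polynomial in `k` variables at the torus point
`(exp (2 π i t_1), …, exp (2 π i t_k))`. -/
def value {k : ℕ} (F : MvPolynomial (Fin k) ℤ) (t : Fin k → ℝ) : ℂ :=
  MvPolynomial.eval (fun j : Fin k => Complex.exp (2 * (Real.pi : ℂ) * Complex.I * ((t j : ℝ) : ℂ)))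
    (MvPolynomial.map (Int.castRingHom ℂ) F)

/-- The logarithmic Mahler measure `m(F)`. -/
def logMahler {k : ℕ} (F : MvPolynomial (Fin k) ℤ) : ℝ :=
  ∫ t in Set.Icc (0 : Fin k → ℝ) 1, Real.log ‖value F t‖

/-- The integral of `log⁺ |F|` over the torus. -/
def logPlus {k : ℕ} (F : MvPolynomial (Fin k) ℤ) : ℝ :=
  ∫ t in Set.Icc (0 : Fin k → ℝ) 1, Real.log (max ‖value F t‖ 1)

/-- The set `M(F)` of the logarithmic Mahler measures of the monomial substitutions `F_A ≠ 0`,
`A` an integer matrix with `l ≥ 0` rows: `F_A(z) = F(z ^ A)` takes at the torus point with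
arguments `t` the value of `F` at the torus point with arguments `∑_i A_{i j} t_i`. -/
def substMeasures {k : ℕ} (F : MvPolynomial (Fin k) ℤ) : Set ℝ :=
  {y : ℝ | ∃ (l : ℕ) (A : Matrix (Fin l) (Fin k) ℤ),
    (∃ t : Fin l → ℝ, value F (fun j => ∑ i, (A i j : ℝ) * t i) ≠ 0) ∧
    y = ∫ t in Set.Icc (0 : Fin l → ℝ) 1,
      Real.log ‖value F (fun j => ∑ i, (A i j : ℝ) * t i)‖}

/-- The linear form `a_1 z_1 + ⋯ + a_r z_r`. -/
def linearForm {r : ℕ} (a : Fin r → ℤ) : MvPolynomial (Fin r) ℤ :=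
  ∑ i, MvPolynomial.C (a i) * MvPolynomial.X i

theorem logPlus_eq {k : ℕ} (F : MvPolynomial (Fin k) ℤ) :
    logPlus F = Pool.Agent.H261R2.CM.mx F 1 := by
  unfold logPlus Pool.Agent.H261R2.CM.mx
  refine MeasureTheory.integral_congr_ae (Eventually.of_forall fun t => ?_)
  simp only
  rw [Pool.Agent.H261R2.CM.J.tv_one, norm_one]
  rfl

theorem logMahler_eq {k : ℕ} (F : MvPolynomial (Fin k) ℤ) :
    logMahler F = Real.log (Pool.Agent.H261R2.CM.mM F) := by
  unfold logMahler Pool.Agent.H261R2.CM.mM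
  rw [Real.log_exp]
  rfl

theorem result :
    (∀ (d : ℕ → ℕ) (F : ∀ n : ℕ, MvPolynomial (Fin (d n)) ℤ), (∀ n, F n ≠ 0) →
      (∀ (k : ℕ) (G : MvPolynomial (Fin k) ℤ), G ≠ 0 →
        {n : ℕ | logMahler (F n) ∈ substMeasures G}.Finite) →
      Tendsto (fun n => logPlus (F n)) atTop atTop ∧
      ∀ p : ℝ, 0 < p →
        Tendsto (fun n => ∫ t in Set.Icc (0 : Fin (d n) → ℝ) 1, ‖value (F n) t‖ ^ p) atTop atTop) ∧
    (∀ K : ℝ, ∃ N : ℕ, ∀ (k : ℕ) (F : MvPolynomial (Fin k) ℤ), F ≠ 0 → logPlus F ≤ K →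
      ∃ (r : ℕ) (a : Fin r → ℤ), r ≤ N ∧ (∀ i, |a i| ≤ (N : ℤ)) ∧ linearForm a ≠ 0 ∧
        logMahler F ∈ substMeasures (linearForm a)) := by
  refine ⟨fun d F hF hfin => ?_, fun K => ?_⟩
  · have h : ∀ (k : ℕ) (G : MvPolynomial (Fin k) ℤ), G ≠ 0 →
        {n : ℕ | Real.log (Pool.Agent.H261R2.CM.mM (F n)) ∈
          Pool.Agent.H887R3.LW.MM G}.Finite := by
      intro k G hG
      have h1 := hfin k G hG
      simp only [logMahler_eq] at h1
      exact h1
    refine ⟨?_, fun p hp => Pool.Agent.H887R3.LW.avoid_mv_lp d F hF h p hp⟩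
    simp only [logPlus_eq]
    exact Pool.Agent.H887R3.LW.avoid_mv d F hF h
  · obtain ⟨N, hN⟩ := Pool.Agent.H887R3.LW.family K
    refine ⟨N, fun k F hF hK => ?_⟩
    rw [logPlus_eq] at hK
    obtain ⟨ι, h1, h2⟩ := hN k F hF hK
    refine ⟨ι.1, fun i => ((ι.2 i : ℕ) : ℤ) - N, by have := ι.1.2; omega, fun i => ?_, h1, ?_⟩
    · have := (ι.2 i).2
      change |((ι.2 i : ℕ) : ℤ) - N| ≤ (N : ℤ)
      rw [abs_le]
      constructor <;> omega
    · rw [logMahler_eq]
      exact h2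

end

end Pool.Agent.Results.MP_9f5454_nt.LogPlusSequences
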